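import Pool.Agent.Lib.MP_c7af3c_ag.GEN.Interfaces

/-!
# Module SEID (Seidenberg): a derivation which preserves an order preserves the integral closure
(helper81)
-/

set_option autoImplicit false

namespace Pool.Agent.Gen.H81

open scoped Nat

/-! ### the operator identity -/

section Ad
variable {R : Type} [Ring R]

/-- commutator with `Z` -/
def ad (Z P : R) : R := P * Z - Z * P

theorem ad_mul_left (Z D M X : R) (h1 : D * Z - Z * D = M) :
    ad Z (D * X) = D * ad Z X + M * X := by
  unfold ad
  rw [← h1]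
  noncomm_ring

theorem ad_comm_left (Z M X : R) (h2 : M * Z = Z * M) : ad Z (M * X) = M * ad Z X := by
  unfold ad
  rw [mul_sub, ← mul_assoc Z M X, ← h2]
  noncomm_ring

theorem ad_add (Z X Y : R) : ad Z (X + Y) = ad Z X + ad Z Y := by
  unfold ad; noncomm_ring

theorem ad_nsmul (Z X : R) (n : ℕ) : ad Z (n • X) = n • ad Z X := by
  unfold ad
  rw [smul_mul_assoc, mul_smul_comm, smul_sub]

theorem ad_iter (Z D M X : R) (h1 : D * Z - Z * D = M) (h2 : M * Z = Z * M) (k : ℕ) :
    (ad Z)^[k + 1] (D * X) = D * (ad Z)^[k + 1] X + (k + 1) • (M * (ad Z)^[k] X) := by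
  induction k with
  | zero =>
    show ad Z (D * X) = D * ad Z X + (0 + 1) • (M * X)
    rw [ad_mul_left Z D M X h1]; simp
  | succ k ih =>
    rw [Function.iterate_succ_apply', ih, ad_add, ad_nsmul, ad_mul_left Z D M _ h1,
      ad_comm_left Z M _ h2, ← Function.iterate_succ_apply' (ad Z) (k + 1),
      ← Function.iterate_succ_apply' (ad Z) k, succ_nsmul (M * (ad Z)^[k + 1] X) (k + 1)]
    abel

theorem ad_pow (Z D M : R) (h1 : D * Z - Z * D = M) (h2 : M * Z = Z * M) (s : ℕ) :
    (ad Z)^[s] (D ^ s) = (s)! • M ^ s ∧ ∀ k, s < k → (ad Z)^[k] (D ^ s) = 0 := by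
  induction s with
  | zero =>
    refine ⟨by simp, fun k hk => ?_⟩
    obtain ⟨k, rfl⟩ : ∃ j, k = j + 1 := ⟨k - 1, by omega⟩
    rw [pow_zero, Function.iterate_succ_apply]
    have : ad Z (1 : R) = 0 := by unfold ad; simp
    rw [this]
    clear hk
    induction k with
    | zero => rfl
    | succ k ih =>
      rw [Function.iterate_succ_apply', ih]
      unfold ad; simp
  | succ s ih =>
    refine ⟨?_, fun k hk => ?_⟩
    · rw [pow_succ', ad_iter Z D M _ h1 h2, ih.2 _ (Nat.lt_succ_self s), ih.1, mul_zero, zero_add,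
        mul_smul_comm, ← pow_succ', smul_smul, Nat.factorial_succ]
    · obtain ⟨k, rfl⟩ : ∃ j, k = j + 1 := ⟨k - 1, by omega⟩
      rw [pow_succ', ad_iter Z D M _ h1 h2, ih.2 _ (by omega), ih.2 _ (by omega)]
      simp

end Ad

/-- Module SEID. -/
theorem seid : SeidStatement := by
  intro κ L _ _ _ τ h δ G hκ hτ hG htop z hz
  have := h.char
  have := h.pid
  set A : Subalgebra κ L := Algebra.adjoin κ (insert τ G) with hA
  have hPA : ∀ x : L, x ∈ PA κ τ → x ∈ A := by
    intro x hx
    exact Algebra.adjoin_mono (Set.singleton_subset_iff.2 (Set.mem_insert _ _)) hx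
  -- constants are integral
  have hconst : ∀ a : κ, IsIntegral (PA κ τ) (algebraMap κ L a) := by
    intro a
    exact isIntegral_algebraMap (A := L) (R := PA κ τ) (x := algebraMap κ (PA κ τ) a)
  have hPint : ∀ x : L, x ∈ PA κ τ → IsIntegral (PA κ τ) x := fun x hx =>
    isIntegral_algebraMap (A := L) (R := PA κ τ) (x := ⟨x, hx⟩)
  -- `A ⊆ B`
  have hAB : ∀ x ∈ A, IsIntegral (PA κ τ) x := by
    intro x hx
    induction hx using Algebra.adjoin_induction with
    | mem x hx =>
      rcases hx with rfl | hx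
      · exact hPint _ (Algebra.self_mem_adjoin_singleton κ _)
      · exact (hG x hx).2
    | algebraMap r => exact hconst r
    | add x y _ _ hx hy => exact hx.add hy
    | mul x y _ _ hx hy => exact hx.mul hy
  -- `δ A ⊆ A`
  have hδA : ∀ x ∈ A, δ x ∈ A := by
    intro x hx
    induction hx using Algebra.adjoin_induction with
    | mem x hx =>
      rcases hx with rfl | hx
      · rw [hτ]; exact zero_mem _
      · rw [(hG x hx).1]; exact zero_mem _
    | algebraMap r =>
      obtain ⟨b, hb⟩ := hκ r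
      rw [hb]; exact Subalgebra.algebraMap_mem _ _
    | add x y _ _ hx hy => rw [map_add]; exact add_mem hx hy
    | mul x y hx' hy' hx hy =>
      rw [Derivation.leibniz, smul_eq_mul, smul_eq_mul]
      exact add_mem (mul_mem hx' hy) (mul_mem hy' hx)
  -- the denominator
  obtain ⟨g, hg0, hg⟩ : ∃ g : L, g ≠ 0 ∧ ∀ x, IsIntegral (PA κ τ) x → g * x ∈ A := by
    obtain ⟨S, hS⟩ := h.finB
    have hden : ∀ b : L, ∃ c : L, c ∈ A ∧ c ≠ 0 ∧ c * b ∈ A := by
      intro b
      have hb : b ∈ IntermediateField.adjoin κ (insert τ G) := by rw [htop]; trivial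
      rw [IntermediateField.mem_adjoin_iff_div] at hb
      obtain ⟨r, hr, s, hs, rfl⟩ := hb
      by_cases hs0 : s = 0
      · exact ⟨1, one_mem _, one_ne_zero, by rw [hs0]; simp⟩
      · exact ⟨s, hs, hs0, by rw [mul_div_cancel₀ _ hs0]; exact hr⟩
    choose c hcA hc0 hcb using hden
    refine ⟨∏ b ∈ S, c (b : L), Finset.prod_ne_zero_iff.2 fun b _ => hc0 _, ?_⟩
    intro x hx
    have hx' : (⟨x, hx⟩ : PB κ τ) ∈ Submodule.span (PA κ τ) (S : Set (PB κ τ)) := by
      rw [hS]; trivial
    have key : ∀ y : PB κ τ, y ∈ Submodule.span (PA κ τ) (S : Set (PB κ τ)) →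
        (∏ b ∈ S, c (b : L)) * (y : L) ∈ A := by
      intro y hy
      induction hy using Submodule.span_induction with
      | mem y hy =>
        classical
        rw [← Finset.mul_prod_erase S _ hy, mul_comm (c (y : L)), mul_assoc]
        exact mul_mem (prod_mem fun b _ => hcA _) (hcb _)
      | zero => simp [zero_mem]
      | add y y' _ _ h1 h2 =>
        show (∏ b ∈ S, c (b : L)) * ((y : L) + (y' : L)) ∈ A
        rw [mul_add]
        exact add_mem h1 h2
      | smul a y _ h1 =>
        have e : (((a • y : PB κ τ)) : L) = (a : L) * (y : L) := rfl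
        rw [e, mul_left_comm]
        exact mul_mem (hPA _ a.2) h1
    exact key _ hx'
  -- the conductor
  set cd : Set L := {f | ∀ x, IsIntegral (PA κ τ) x → f * x ∈ A} with hcd
  have hcdA : ∀ f ∈ cd, f ∈ A := by
    intro f hf
    have := hf 1 isIntegral_one
    rwa [mul_one] at this
  have hcdz : ∀ f ∈ cd, z * f ∈ cd := by
    intro f hf x hx
    have := hf (z * x) (hz.mul hx)
    rwa [← mul_assoc, mul_comm f z] at this
  -- operators
  let D : Module.End ℤ L := δ.toLinearMap
  let Z : Module.End ℤ L := LinearMap.mulLeft ℤ z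
  let M : Module.End ℤ L := LinearMap.mulLeft ℤ (δ z)
  have h1 : D * Z - Z * D = M := by
    ext f
    show δ (z * f) - z * δ f = δ z * f
    rw [Derivation.leibniz, smul_eq_mul, smul_eq_mul]; ring
  have h2 : M * Z = Z * M := by
    ext f
    show δ z * (z * f) = z * (δ z * f)
    ring
  have hDs : ∀ (s : ℕ), ∀ f ∈ A, (D ^ s) f ∈ A := by
    intro s
    induction s with
    | zero => intro f hf; simpa using hf
    | succ s ih =>
      intro f hf
      rw [pow_succ]
      exact ih _ (hδA f hf)
  have hop : ∀ (P : Module.End ℤ L), (∀ f ∈ cd, IsIntegral (PA κ τ) (P f)) → ∀ k : ℕ,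
      ∀ f ∈ cd, IsIntegral (PA κ τ) (((ad Z)^[k] P) f) := by
    intro P hP k
    induction k with
    | zero => exact hP
    | succ k ih =>
      intro f hf
      rw [Function.iterate_succ_apply']
      show IsIntegral (PA κ τ) (((ad Z)^[k] P) (z * f) - z * ((ad Z)^[k] P) f)
      exact (ih _ (hcdz f hf)).sub (hz.mul (ih f hf))
  have hpow : ∀ s : ℕ, IsIntegral (PA κ τ) (g * δ z ^ s) := by
    intro s
    have h3 := hop (D ^ s) (fun f hf => hAB _ (hDs s f (hcdA f hf))) s g hg
    rw [(ad_pow Z D M h1 h2 s).1] at h3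
    have h4 : ∀ (s : ℕ) (f : L), (M ^ s) f = δ z ^ s * f := by
      intro s
      induction s with
      | zero => intro f; simp
      | succ s ih =>
        intro f
        rw [pow_succ, Module.End.mul_apply, ih]
        show δ z ^ s * (δ z * f) = _
        ring
    have h5 : (((s)! • M ^ s : Module.End ℤ L)) g = ((s)! : L) * (g * δ z ^ s) := by
      rw [LinearMap.smul_apply, h4, nsmul_eq_mul]
      ring
    rw [h5] at h3
    have h6 := (hconst (((s)! : κ)⁻¹)).mul h3
    have h7 : algebraMap κ L (((s)! : κ)⁻¹) * (((s)! : L) * (g * δ z ^ s)) = g * δ z ^ s := by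
      have h8 : ((s)! : κ) ≠ 0 := by exact_mod_cast Nat.factorial_ne_zero s
      have h9 : ((s)! : L) = algebraMap κ L ((s)! : κ) := by simp
      rw [h9, ← mul_assoc, ← map_mul, inv_mul_cancel₀ h8, map_one, one_mul]
    rwa [h7] at h6
  -- the module generated by the powers of `δ z`
  let N : Submodule (PA κ τ) L := Submodule.span (PA κ τ) (Set.range fun s : ℕ => δ z ^ s)
  let B' : Submodule (PA κ τ) L := (PB κ τ).toSubmodule
  let mg : L →ₗ[PA κ τ] L := LinearMap.mulLeft (PA κ τ) g⁻¹
  have hBfg : B'.FG := by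
    have := h.finB
    exact (Module.Finite.iff_fg (N := B')).1 h.finB
  have hNfg : N.FG := by
    have h3 : (B'.map mg).FG := hBfg.map mg
    have h4 := isNoetherian_of_fg_of_noetherian _ h3
    refine isNoetherian_submodule.1 h4 N ?_
    rw [Submodule.span_le]
    rintro _ ⟨s, rfl⟩
    refine ⟨g * δ z ^ s, hpow s, ?_⟩
    show g⁻¹ * (g * δ z ^ s) = δ z ^ s
    rw [← mul_assoc, inv_mul_cancel₀ hg0, one_mul]
  refine isIntegral_of_smul_mem_submodule N ?_ hNfg (δ z) ?_
  · intro h0
    have : (1 : L) ∈ N := Submodule.subset_span ⟨0, by simp⟩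
    rw [h0, Submodule.mem_bot] at this
    exact one_ne_zero this
  · intro n hn
    induction hn using Submodule.span_induction with
    | mem x hx =>
      obtain ⟨s, rfl⟩ := hx
      refine Submodule.subset_span ⟨s + 1, ?_⟩
      show δ z ^ (s + 1) = δ z • (δ z ^ s)
      rw [smul_eq_mul, pow_succ']
    | zero => rw [smul_zero]; exact zero_mem _
    | add x y _ _ h1 h2 => rw [smul_add]; exact add_mem h1 h2
    | smul a x _ h1 =>
      rw [smul_comm]
      exact Submodule.smul_mem _ _ h1

end Pool.Agent.Gen.H81
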