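import Pool.Agent.Lib.MP_c7af3c_ag.GEN.Schemes

/-!
# Module SFIN: arithmetic hyperbolicity of the closed subvarieties (helper81)
-/

set_option autoImplicit false

namespace Pool.Agent.Gen.H81

open AlgebraicGeometry CategoryTheory CategoryTheory.Limits
open MvPolynomial (homogeneousSubmodule)

/-- naturality of the value -/
theorem kval_comp {k : Type} [Field k] {Y Z : Scheme.{0}} (y : Spec (CommRingCat.of k) ⟶ Y)
    (φ : Y ⟶ Z) (U : Z.Opens) (h : ⊤ ≤ (y ≫ φ) ⁻¹ᵁ U) (h' : ⊤ ≤ y ⁻¹ᵁ (φ ⁻¹ᵁ U))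
    (f : Γ(Z, U)) : kval (y ≫ φ) U h f = kval y (φ ⁻¹ᵁ U) h' ((φ.app U).hom f) := by
  unfold kval
  have h1 := Scheme.Hom.appLE_comp_appLE y φ U (φ ⁻¹ᵁ U) ⊤ le_rfl h'
  rw [← h1, Scheme.Hom.app_eq_appLE]
  rfl

theorem fg_closure {k : Type} [Field k] (R : Subring k) (h : Algebra.FiniteType ℤ R) :
    ∃ S : Set k, S.Finite ∧ (R : Set k) ⊆ Subfield.closure S := by
  obtain ⟨S, hS⟩ := h.out
  refine ⟨Subtype.val '' (S : Set R), S.finite_toSet.image _, ?_⟩
  intro r hr
  have h1 : (⟨r, hr⟩ : R) ∈ Algebra.adjoin ℤ (S : Set R) := by rw [hS]; trivial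
  have key : ∀ x : R, x ∈ Algebra.adjoin ℤ (S : Set R) →
      (x : k) ∈ Subfield.closure (Subtype.val '' (S : Set R)) := by
    intro x hx
    induction hx using Algebra.adjoin_induction with
    | mem x hx => exact Subfield.subset_closure ⟨x, hx, rfl⟩
    | algebraMap r =>
      have : ((algebraMap ℤ R r : R) : k) = (r : k) := by simp
      rw [this]
      exact intCast_mem _ r
    | add x y _ _ hx hy => exact add_mem hx hy
    | mul x y _ _ hx hy => exact mul_mem hx hy
  exact key _ h1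

/-- Module SFIN. -/
theorem sfin (hL : ThmlStatement) (hSp : SpreadStatement) (hInj : SinjStatement)
    (hProj : SprojStatement) (hFib : SfibStatement) : SfinStatement := by
  intro k _ _ _ n c d F hF hind hdeg X hX R hR M hsep hlft hqc he
  obtain ⟨inst, i, hi, hiX, hiF⟩ := hX
  obtain ⟨e, he⟩ := he
  have PF := hProj k n
  set p := M.hom with hp
  -- the morphism to projective space
  set φ : pullback p (specIncl R) ⟶ Proj (homogeneousSubmodule (Fin (n + 1)) k) :=
    e.hom ≫ i with hφ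
  have hφstr : φ ≫ projStr k n = pullback.snd p (specIncl R) := by
    rw [hφ, Category.assoc, hiX]
    exact he
  have hφF : ∀ (a : ↥(pullback p (specIncl R))) (m : Fin c),
      F m ∈ (φ.base a).asHomogeneousIdeal := by
    intro a m
    have : φ.base a = i.base (e.hom.base a) := by rw [hφ]; simp
    rw [this]
    exact hiF _ m
  have hφfin : IsFinite φ := by
    rw [hφ]
    infer_instance
  -- the opens and the sections
  let D : Fin (n + 1) → (Proj (homogeneousSubmodule (Fin (n + 1)) k)).Opens := fun j =>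
    Proj.basicOpen (homogeneousSubmodule (Fin (n + 1)) k) (MvPolynomial.X j)
  have hDaff : ∀ j, IsAffineOpen (D j) := fun j =>
    Proj.isAffineOpen_basicOpen (homogeneousSubmodule (Fin (n + 1)) k) (MvPolynomial.X j)
      (m := 1) (MvPolynomial.isHomogeneous_X k j) Nat.one_pos
  have hVc : ∀ j, IsCompact (φ ⁻¹ᵁ D j).carrier := fun j =>
    ((hDaff j).preimage φ).isCompact
  have hT : ∀ j l : Fin (n + 1), ∃ T : Set k, T.Finite ∧
      ∀ (s : Spec (CommRingCat.of R) ⟶ M.left) (hs : s ≫ p = 𝟙 _)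
        (h : ⊤ ≤ secPt R p s hs ⁻¹ᵁ (φ ⁻¹ᵁ D j)),
        kval (secPt R p s hs) (φ ⁻¹ᵁ D j) h ((φ.app (D j)).hom (coordSec k n j l)) ∈
          Subfield.closure (R ∪ T) := fun j l =>
    hSp k R M.left p (φ ⁻¹ᵁ D j) (hVc j) _
  choose T hTfin hTval using hT
  obtain ⟨S0, hS0, hRS⟩ := fg_closure R hR
  set S : Set k := S0 ∪ ⋃ j, ⋃ l, T j l with hS
  have hSfin : S.Finite := hS0.union (Set.finite_iUnion fun j => Set.finite_iUnion fun l => hTfin j l)
  have hRT : ∀ j l, Subfield.closure ((R : Set k) ∪ T j l) ≤ Subfield.closure S := by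
    intro j l
    rw [Subfield.closure_le]
    rintro x (hx | hx)
    · exact Subfield.closure_mono Set.subset_union_left (hRS hx)
    · refine Subfield.subset_closure (Or.inr ?_)
      exact Set.mem_iUnion.2 ⟨j, Set.mem_iUnion.2 ⟨l, hx⟩⟩
  -- the finite sets
  have hfin := fun j0 => hL k n c d F hF hind hdeg S hSfin j0
  -- sections in the chart `j`
  let A : Fin (n + 1) → Set (Spec (CommRingCat.of R) ⟶ M.left) := fun j =>
    {s | ∃ hs : s ≫ p = 𝟙 _, ⊤ ≤ (secPt R p s hs ≫ φ) ⁻¹ᵁ D j}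
  have hcov : {s : Spec (CommRingCat.of R) ⟶ M.left | s ≫ p = 𝟙 _} ⊆ ⋃ j, A j := by
    intro s hs
    have hs' : s ≫ p = 𝟙 _ := hs
    let pt : ↥(Spec (CommRingCat.of k)) := (⊥ : PrimeSpectrum k)
    obtain ⟨j, hj⟩ := PF.chart ((secPt R p s hs' ≫ φ).base pt)
    refine Set.mem_iUnion.2 ⟨j, hs', ?_⟩
    intro x _
    have hx : x = pt := Subsingleton.elim (α := PrimeSpectrum k) _ _
    rw [hx]
    exact hj
  refine Set.Finite.subset (Set.finite_iUnion fun j => ?_) hcov
  -- injectivity
  have hstr : ∀ (s : Spec (CommRingCat.of R) ⟶ M.left) (hs : s ≫ p = 𝟙 _),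
      (secPt R p s hs ≫ φ) ≫ projStr k n = 𝟙 _ := by
    intro s hs
    rw [Category.assoc, hφstr]
    unfold secPt
    rw [pullback.lift_snd]
  have := (hfin j).to_subtype
  let g : A j → {x : Fin (n + 1) → k | x j = 1 ∧ (∀ l, x l ∈ Subfield.closure S) ∧
      ∀ m, MvPolynomial.eval x (F m) = 0} := fun s =>
    ⟨pcoord k n j (secPt R p s.1 s.2.choose ≫ φ) s.2.choose_spec, by
      refine ⟨PF.one j _ _, fun l => ?_, fun m => ?_⟩
      · apply hRT j l
        have h1 := hTval j l s.1 s.2.choose s.2.choose_spec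
        unfold pcoord
        rw [kval_comp (secPt R p s.1 s.2.choose) φ (D j) s.2.choose_spec s.2.choose_spec]
        exact h1
      · refine PF.zero j _ _ (hstr s.1 s.2.choose) (d m) (F m) (hF m) ?_
        intro a
        have : (secPt R p s.1 s.2.choose ≫ φ).base a =
            φ.base ((secPt R p s.1 s.2.choose).base a) := by simp
        rw [this]
        exact hφF _ m⟩
  have hgfib : ∀ v, {s : A j | g s = v}.Finite := by
    intro v
    by_cases hv : ∃ s0 : A j, g s0 = v
    · obtain ⟨s0, rfl⟩ := hv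
      have hfib := hFib k _ _ φ hφfin (secPt R p s0.1 s0.2.choose ≫ φ)
      refine Set.Finite.of_finite_image (f := fun s : A j => secPt R p s.1 s.2.choose)
        (hfib.subset ?_) ?_
      · rintro x ⟨s, hs, rfl⟩
        exact PF.inj j _ _ _ _ (hstr s.1 s.2.choose) (hstr s0.1 s0.2.choose)
          (congrArg Subtype.val hs)
      · intro s _ s' _ hss
        exact Subtype.ext (hInj k R M.left p hsep s.1 s'.1 _ _ hss)
    · refine Set.Finite.subset Set.finite_empty fun s hs => hv ⟨s, hs⟩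
  have hAj : (Set.univ : Set (A j)).Finite := by
    refine Set.Finite.of_finite_fibers g ?_ fun v _ => (hgfib v).subset fun s hs => hs.2
    exact Set.toFinite _
  exact Set.finite_coe_iff.1 (Set.finite_univ_iff.1 hAj)

end Pool.Agent.Gen.H81
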