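import Pool.Agent.Lib.MP_c7af3c_ag.GEN.Interfaces

/-!
# The ultrapower of a field (helper for module ULTRA, helper81)
-/

set_option autoImplicit false

namespace Pool.Agent.Gen.H81

open Filter

/-- the filter -/
noncomputable abbrev UF : Filter ℕ := (hyperfilter ℕ : Ultrafilter ℕ)

/-- The ultrapower of `K`. -/
def Om (K : Type) : Type := Filter.Germ UF K

noncomputable instance {K : Type} [Field K] : Field (Om K) :=
  inferInstanceAs (Field (Filter.Germ UF K))

/-- the class of a sequence -/
noncomputable def qm (K : Type) [Field K] : (ℕ → K) →+* Om K := Filter.Germ.coeRingHom UF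

theorem qm_surj (K : Type) [Field K] : Function.Surjective (qm K) := fun x =>
  Filter.Germ.inductionOn x fun f => ⟨f, rfl⟩

theorem qm_eq {K : Type} [Field K] {f g : ℕ → K} : qm K f = qm K g ↔ ∀ᶠ ν in UF, f ν = g ν :=
  Filter.Germ.coe_eq

theorem qm_zero {K : Type} [Field K] {f : ℕ → K} : qm K f = 0 ↔ ∀ᶠ ν in UF, f ν = 0 := by
  rw [← map_zero (qm K), qm_eq]; rfl

/-- a map applied to the members of a sequence -/
noncomputable def omap {k K : Type} [Field k] [Field K] (φ : k → K) : Om k → Om K :=
  Filter.Germ.map φ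

theorem omap_qm {k K : Type} [Field k] [Field K] (φ : k → K) (f : ℕ → k) :
    omap φ (qm k f) = qm K (fun ν => φ (f ν)) := rfl

/-- the ring hom induced on ultrapowers -/
noncomputable def om {k K : Type} [Field k] [Field K] (φ : k →+* K) : Om k →+* Om K where
  toFun := omap φ
  map_one' := by
    rw [← map_one (qm k), omap_qm, ← map_one (qm K)]
    congr 1; funext ν; exact map_one φ
  map_zero' := by
    rw [← map_zero (qm k), omap_qm, ← map_zero (qm K)]
    congr 1; funext ν; exact map_zero φ
  map_mul' := by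
    intro x y
    obtain ⟨f, rfl⟩ := qm_surj k x
    obtain ⟨g, rfl⟩ := qm_surj k y
    rw [← map_mul, omap_qm, omap_qm, omap_qm, ← map_mul]
    congr 1; funext ν; exact map_mul φ _ _
  map_add' := by
    intro x y
    obtain ⟨f, rfl⟩ := qm_surj k x
    obtain ⟨g, rfl⟩ := qm_surj k y
    rw [← map_add, omap_qm, omap_qm, omap_qm, ← map_add]
    congr 1; funext ν; exact map_add φ _ _

theorem om_qm {k K : Type} [Field k] [Field K] (φ : k →+* K) (f : ℕ → k) :
    om φ (qm k f) = qm K (fun ν => φ (f ν)) := rfl

/-- the derivation induced on ultrapowers -/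
noncomputable def omD {K : Type} [Field K] (δ : Derivation ℤ K K) : Derivation ℤ (Om K) (Om K) :=
  Derivation.mk' (AddMonoidHom.toIntLinearMap
    { toFun := omap δ
      map_zero' := by
        rw [← map_zero (qm K), omap_qm]
        congr 1; funext ν; exact map_zero δ
      map_add' := by
        intro x y
        obtain ⟨f, rfl⟩ := qm_surj K x
        obtain ⟨g, rfl⟩ := qm_surj K y
        rw [← map_add, omap_qm, omap_qm, omap_qm, ← map_add]
        congr 1; funext ν; exact map_add δ _ _ }) (by
    intro x y
    obtain ⟨f, rfl⟩ := qm_surj K x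
    obtain ⟨g, rfl⟩ := qm_surj K y
    show omap δ (qm K f * qm K g) = qm K f * omap δ (qm K g) + qm K g * omap δ (qm K f)
    rw [← map_mul, omap_qm, omap_qm, omap_qm, ← map_mul, ← map_mul, ← map_add]
    congr 1; funext ν; exact δ.leibniz _ _)

theorem omD_qm {K : Type} [Field K] (δ : Derivation ℤ K K) (f : ℕ → K) :
    omD δ (qm K f) = qm K (fun ν => δ (f ν)) := rfl

/-- constant sequences -/
noncomputable def cst (K : Type) [Field K] : K →+* Om K := (qm K).comp (Pi.constRingHom ℕ K)

theorem cst_apply {K : Type} [Field K] (a : K) : cst K a = qm K (fun _ => a) := rfl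

theorem cst_inj {K : Type} [Field K] : Function.Injective (cst K) := (cst K).injective

/-- the ultrapower of an algebraically closed field is algebraically closed -/
theorem isAlgClosed_om (k : Type) [Field k] [IsAlgClosed k] : IsAlgClosed (Om k) := by
  apply IsAlgClosed.of_exists_root
  intro p hmon hirr
  set m := p.natDegree with hm
  have hm1 : 1 ≤ m := Nat.one_le_iff_ne_zero.2 hirr.natDegree_pos.ne'
  choose c hc using fun i : ℕ => qm_surj k (p.coeff i)
  have hroot : ∀ ν : ℕ, ∃ z : k, z ^ m + ∑ i : Fin m, c i ν * z ^ (i : ℕ) = 0 := by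
    intro ν
    set P : Polynomial k := Polynomial.X ^ m +
      ∑ i : Fin m, Polynomial.C (c i ν) * Polynomial.X ^ (i : ℕ) with hP
    have hdeg : (∑ i : Fin m, Polynomial.C (c i ν) * Polynomial.X ^ (i : ℕ)).degree < (m : WithBot ℕ) :=
      Polynomial.degree_sum_fin_lt fun i : Fin m => c i ν
    have hPd : P.degree = m := by
      rw [hP, Polynomial.degree_add_eq_left_of_degree_lt]
      · exact Polynomial.degree_X_pow m
      · rwa [Polynomial.degree_X_pow]
    obtain ⟨z, hz⟩ := IsAlgClosed.exists_root P (by
      rw [hPd]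
      exact_mod_cast (by omega : m ≠ 0))
    refine ⟨z, ?_⟩
    have : P.eval z = 0 := hz
    rw [hP] at this
    simpa [Polynomial.eval_finsetSum] using this
  choose z hz using hroot
  refine ⟨qm k z, ?_⟩
  rw [Polynomial.eval_eq_sum_range, Finset.sum_range_succ, ← hm]
  have hlc : p.coeff m = 1 := hmon
  rw [hlc, one_mul, Finset.sum_range]
  have h1 : ∑ i : Fin m, p.coeff i * qm k z ^ (i : ℕ) =
      qm k (fun ν => ∑ i : Fin m, c i ν * z ν ^ (i : ℕ)) := by
    have : (fun ν => ∑ i : Fin m, c i ν * z ν ^ (i : ℕ)) =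
        ∑ i : Fin m, c i * z ^ (i : ℕ) := by
      funext ν
      simp [Finset.sum_apply]
    rw [this, map_sum]
    refine Finset.sum_congr rfl fun i _ => ?_
    rw [map_mul, map_pow, hc]
  rw [h1, ← map_pow, ← map_add, qm_zero]
  refine Filter.Eventually.of_forall fun ν => ?_
  have := hz ν
  simp only [Pi.add_apply, Pi.pow_apply]
  rw [add_comm]
  exact this

end Pool.Agent.Gen.H81
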