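import Pool.Agent.Lib.MP_c7af3c_ag.GEN.Interfaces
import Pool.Agent.Lib.MP_c7af3c_ag.GEN.H81.Om

/-!
# Module ULTRA: the ultrapower point (helper81)
-/

set_option autoImplicit false

namespace Pool.Agent.Gen.H81

open Filter MvPolynomial

section
variable (k0 K : Type) [Field k0] [Field K] [Algebra k0 K]

noncomputable instance instAlgOm : Algebra k0 (Om K) := ((cst K).comp (algebraMap k0 K)).toAlgebra

theorem algebraMap_om (a : k0) : algebraMap k0 (Om K) a = qm K (fun _ => algebraMap k0 K a) := rfl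

/-- the constants -/
noncomputable def KKf : IntermediateField k0 (Om K) :=
  (cst K).fieldRange.toIntermediateField (fun a => ⟨algebraMap k0 K a, rfl⟩)

/-- the sequences in `k0` -/
noncomputable def EEf : IntermediateField k0 (Om K) :=
  (om (algebraMap k0 K)).fieldRange.toIntermediateField
    (fun a => ⟨qm k0 (fun _ => a), rfl⟩)

variable {k0 K}

theorem mem_KKf {x : Om K} : x ∈ KKf k0 K ↔ ∃ a : K, cst K a = x := Iff.rfl

theorem mem_EEf {x : Om K} :
    x ∈ EEf k0 K ↔ ∃ α : ℕ → k0, qm K (fun ν => algebraMap k0 K (α ν)) = x := by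
  constructor
  · rintro ⟨a, rfl⟩
    obtain ⟨α, rfl⟩ := qm_surj k0 a
    exact ⟨α, rfl⟩
  · rintro ⟨α, rfl⟩
    exact ⟨qm k0 α, rfl⟩

theorem ld_om : (KKf k0 K).LinearDisjoint (EEf k0 K) := by
  classical
  set a := Module.Basis.ofVectorSpace k0 (KKf k0 K) with ha
  refine IntermediateField.LinearDisjoint.of_basis_left a ?_
  choose b hb using fun i => mem_KKf.1 (a i).2
  -- the constants `b i` are independent over `k0`
  let cl : K →ₗ[k0] Om K :=
    { toFun := cst K
      map_add' := map_add (cst K)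
      map_smul' := fun r x => by
        rw [Algebra.smul_def, map_mul, Algebra.smul_def]
        rfl }
  have hbi : LinearIndependent k0 b := by
    apply LinearIndependent.of_comp cl
    have h1 : cl ∘ b = (KKf k0 K).val.toLinearMap ∘ a := by
      funext i
      exact hb i
    rw [h1]
    exact a.linearIndependent.map' _ (LinearMap.ker_eq_bot.2 (KKf k0 K).val.injective)
  rw [linearIndependent_iff']
  intro s g hg
  choose α hα using fun i => mem_EEf.1 (g i).2
  have h1 : qm K (fun ν => ∑ i ∈ s, algebraMap k0 K (α i ν) * b i) = 0 := by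
    rw [← hg]
    have : (fun ν => ∑ i ∈ s, algebraMap k0 K (α i ν) * b i) =
        ∑ i ∈ s, (fun ν => algebraMap k0 K (α i ν)) * (fun _ => b i) := by
      funext ν
      simp [Finset.sum_apply]
    rw [this, map_sum]
    refine Finset.sum_congr rfl fun i _ => ?_
    rw [map_mul, hα i]
    show (g i : Om K) * cst K (b i) = g i • ((KKf k0 K).val (a i))
    rw [hb i]
    rfl
  rw [qm_zero] at h1
  intro i hi
  have h2 : ∀ᶠ ν in UF, α i ν = 0 := by
    filter_upwards [h1] with ν hν
    have h3 := linearIndependent_iff'.1 hbi s (fun i => α i ν) (by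
      simpa [Algebra.smul_def] using hν) i hi
    exact h3
  apply Subtype.ext
  rw [← hα i]
  show qm K (fun ν => algebraMap k0 K (α i ν)) = 0
  rw [qm_zero]
  filter_upwards [h2] with ν hν
  rw [hν, map_zero]

theorem isAlgClosed_EEf [IsAlgClosed k0] : IsAlgClosed (EEf k0 K) := by
  have := isAlgClosed_om k0
  let f : Om k0 →+* EEf k0 K := (om (algebraMap k0 K)).codRestrict (EEf k0 K).toSubfield
    (fun x => ⟨x, rfl⟩)
  have hf : Function.Bijective f := by
    refine ⟨f.injective, ?_⟩
    rintro ⟨_, x, rfl⟩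
    exact ⟨x, rfl⟩
  exact IsAlgClosed.of_ringEquiv (Om k0) (EEf k0 K) (RingEquiv.ofBijective f hf)

/-- evaluation in the ultrapower -/
theorem eval_om {n : ℕ} (x : ℕ → Fin (n + 1) → K) (F : MvPolynomial (Fin (n + 1)) K) :
    eval (fun j => qm K (fun ν => x ν j)) (map (cst K) F) = qm K (fun ν => eval (x ν) F) := by
  set X : Fin (n + 1) → (ℕ → K) := fun j ν => x ν j with hX
  rw [eval_map]
  have h1 := eval₂_comp_left (qm K) (Pi.constRingHom ℕ K) X F
  have h2 : (fun j => qm K (fun ν => x ν j)) = qm K ∘ X := rfl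
  rw [h2]
  show eval₂ ((qm K).comp (Pi.constRingHom ℕ K)) (qm K ∘ X) F = _
  rw [← h1]
  congr 1
  funext ν
  have h3 := eval₂_comp_left (Pi.evalRingHom (fun _ : ℕ => K) ν) (Pi.constRingHom ℕ K) X F
  have h4 : (Pi.evalRingHom (fun _ : ℕ => K) ν) (eval₂ (Pi.constRingHom ℕ K) X F) =
      eval₂ (Pi.constRingHom ℕ K) X F ν := rfl
  rw [← h4, h3]
  rfl

/-- polynomials of bounded degree evaluated at a fixed point -/
theorem mem_of_bdd {N : ℕ} (t : Fin N → K) (B : ℕ) (P : ℕ → MvPolynomial (Fin N) k0)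
    (hP : ∀ ν, (P ν).totalDegree ≤ B) :
    qm K (fun ν => aeval t (P ν)) ∈ KKf k0 K ⊔ EEf k0 K := by
  classical
  have hfin := Finsupp.finite_of_degree_le (σ := Fin N) B
  set S : Finset (Fin N →₀ ℕ) := hfin.toFinset with hS
  have hmem : ∀ ν, (P ν).support ⊆ S := by
    intro ν I hI
    rw [hS, Set.Finite.mem_toFinset]
    show I.degree ≤ B
    exact (le_totalDegree hI).trans (hP ν)
  have h1 : (fun ν => aeval t (P ν)) =
      ∑ I ∈ S, (fun ν => algebraMap k0 K (coeff I (P ν))) * (fun _ => ∏ i, t i ^ I i) := by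
    funext ν
    rw [aeval_def, eval₂_eq', Finset.sum_apply]
    simp only [Pi.mul_apply]
    refine Finset.sum_subset (hmem ν) fun I _ hI => ?_
    rw [notMem_support_iff.1 hI, map_zero, zero_mul]
  rw [h1, map_sum]
  refine sum_mem fun I _ => ?_
  rw [map_mul]
  refine mul_mem ?_ ?_
  · exact (le_sup_right : EEf k0 K ≤ KKf k0 K ⊔ EEf k0 K) (mem_EEf.2 ⟨_, rfl⟩)
  · exact (le_sup_left : KKf k0 K ≤ KKf k0 K ⊔ EEf k0 K) (mem_KKf.2 ⟨_, rfl⟩)

theorem mem_of_isBdd {N r : ℕ} (t : Fin N → K) (θ : Fin r → K) (B : ℕ) (y : ℕ → K)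
    (hy : ∀ ν, IsBdd (k0 := k0) t θ B (y ν)) : qm K y ∈ KKf k0 K ⊔ EEf k0 K := by
  choose P Q h1 h2 using hy
  have h3 : y = ∑ s, (fun ν => aeval t (P ν s) / aeval t (Q ν s)) * (fun _ => θ s) := by
    funext ν
    rw [h2 ν, Finset.sum_apply]
    rfl
  rw [h3, map_sum]
  refine sum_mem fun s _ => ?_
  rw [map_mul]
  refine mul_mem ?_ ?_
  · have hQ0 : qm K (fun ν => aeval t (Q ν s)) ≠ 0 := by
      intro h
      rw [qm_zero] at h
      obtain ⟨ν, hν⟩ := h.exists
      exact (h1 ν s).2.2 hν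
    have h4 : qm K (fun ν => aeval t (P ν s) / aeval t (Q ν s)) =
        qm K (fun ν => aeval t (P ν s)) / qm K (fun ν => aeval t (Q ν s)) := by
      rw [eq_div_iff hQ0, ← map_mul]
      congr 1
      funext ν
      exact div_mul_cancel₀ _ (h1 ν s).2.2
    rw [h4]
    exact div_mem (mem_of_bdd t B _ fun ν => (h1 ν s).1) (mem_of_bdd t B _ fun ν => (h1 ν s).2.1)
  · exact (le_sup_left : KKf k0 K ≤ KKf k0 K ⊔ EEf k0 K) (mem_KKf.2 ⟨_, rfl⟩)

/-- the ambient field -/
noncomputable def amb {n c : ℕ} {d : Fin c → ℕ} (D : DSys K n c d)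
    (hD : ∀ m I, I.degree = d m → ∀ a : k0, D.del m I (algebraMap k0 K a) = 0) :
    Amb k0 (Om K) n c d where
  KK := KKf k0 K
  EE := EEf k0 K
  ld := ld_om
  D :=
    { F := fun m => map (cst K) (D.F m)
      hom := fun m => (D.hom m).map _
      del := fun m I => omD (D.del m I)
      dual := by
        intro m I m' J hI hJ
        rw [coeff_map, cst_apply, omD_qm, D.dual m I m' J hI hJ]
        split_ifs
        · exact map_one (qm K)
        · exact map_zero (qm K) }
  coeff_mem := by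
    intro m I
    show coeff I (map (cst K) (D.F m)) ∈ KKf k0 K
    rw [coeff_map]
    exact mem_KKf.2 ⟨_, rfl⟩
  del_KK := by
    intro m I _ f hf
    obtain ⟨a, rfl⟩ := mem_KKf.1 hf
    exact mem_KKf.2 ⟨D.del m I a, rfl⟩
  del_EE := by
    intro m I hI f hf
    obtain ⟨α, rfl⟩ := mem_EEf.1 hf
    show omD (D.del m I) (qm K fun ν => algebraMap k0 K (α ν)) = 0
    rw [omD_qm, qm_zero]
    exact Filter.Eventually.of_forall fun ν => hD m I hI _

end

/-- Module ULTRA. -/
theorem ultra : UltraStatement := by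
  intro k0 K _ _ _ _ _ n c d D hD N r B t θ x j0 hinj hx0 hF hbdd
  refine ⟨Om K, inferInstance, inferInstance, amb D hD, fun j => qm K (fun ν => x ν j),
    isAlgClosed_EEf, ?_, ?_, ?_, ?_⟩
  · show qm K (fun ν => x ν j0) = 1
    rw [← map_one (qm K)]
    congr 1
    funext ν
    exact hx0 ν
  · intro m
    show eval (fun j => qm K (fun ν => x ν j)) (map (cst K) (D.F m)) = 0
    rw [eval_om, qm_zero]
    exact Filter.Eventually.of_forall fun ν => hF ν m
  · intro j
    exact mem_of_isBdd t θ B _ fun ν => hbdd ν j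
  · intro h
    have h1 : ∀ j, ∃ a : K, ∀ᶠ ν in UF, x ν j = a := by
      intro j
      obtain ⟨a, ha⟩ := mem_KKf.1 (h j)
      refine ⟨a, ?_⟩
      have h2 : qm K (fun _ => a) = qm K (fun ν => x ν j) := ha
      rw [qm_eq] at h2
      filter_upwards [h2] with ν hν
      exact hν.symm
    choose a ha using h1
    have h2 : ∀ᶠ ν in UF, x ν = a := by
      have := Filter.eventually_all.2 ha
      filter_upwards [this] with ν hν
      funext j
      exact hν j
    have h3 : {ν | x ν = a}.Finite := by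
      apply Set.Subsingleton.finite
      intro ν hν ν' hν'
      exact hinj (hν.trans hν'.symm)
    exact h3.notMem_hyperfilter h2

end Pool.Agent.Gen.H81
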